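import Pool.Agent.RepTile.Box

set_option autoImplicit false

namespace Pool.Agent.Results.MP_d507c7_co.ParallelPieces

/-- A tile: a nonempty bounded closed set in the plane which is the closure of its interior. -/
def Tile (T : Set (EuclideanSpace ℝ (Fin 2))) : Prop :=
  T.Nonempty ∧ Bornology.IsBounded T ∧ IsClosed T ∧ closure (interior T) = T

/-- `P` exhibits `T` as an `n`-reptile: the `n` pieces `P j` are similar to `T` (images of `T` under
`x ↦ r • g x` with `r > 0` and `g` an isometry), pairwise congruent, have union `T` and pairwise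
disjoint interiors. -/
def Dissection {n : ℕ} (T : Set (EuclideanSpace ℝ (Fin 2)))
    (P : Fin n → Set (EuclideanSpace ℝ (Fin 2))) : Prop :=
  (∀ j, ∃ r : ℝ, 0 < r ∧ ∃ g : EuclideanSpace ℝ (Fin 2) ≃ᵢ EuclideanSpace ℝ (Fin 2),
      P j = (fun x => r • g x) '' T) ∧
    (∀ j k, ∃ g : EuclideanSpace ℝ (Fin 2) ≃ᵢ EuclideanSpace ℝ (Fin 2), P k = g '' P j) ∧
    T = ⋃ j, P j ∧
    Pairwise fun j k => Disjoint (interior (P j)) (interior (P k))

/-- Any two pieces are translates or point reflections (half-turn images) of each other. -/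
def Parallel {n : ℕ} (P : Fin n → Set (EuclideanSpace ℝ (Fin 2))) : Prop :=
  ∀ j k, (∃ v : EuclideanSpace ℝ (Fin 2), P k = (fun x => x + v) '' P j) ∨
    (∃ v : EuclideanSpace ℝ (Fin 2), P k = (fun x => v - x) '' P j)

/-- The pieces are translates of each other by the multiples of one vector `c`. -/
def Arithmetic {n : ℕ} (P : Fin n → Set (EuclideanSpace ℝ (Fin 2))) : Prop :=
  ∃ c : EuclideanSpace ℝ (Fin 2), ∀ j k : Fin n,
    P k = (fun x => x + (((k : ℕ) : ℝ) - ((j : ℕ) : ℝ)) • c) '' P j

theorem two_parallel {T : Set (EuclideanSpace ℝ (Fin 2))}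
    {P : Fin 2 → Set (EuclideanSpace ℝ (Fin 2))} (hP : Dissection T P) (hpar : Parallel P) :
    Arithmetic P := by
  have key : ∀ v : EuclideanSpace ℝ (Fin 2), P 1 = (fun x => x + v) '' P 0 → Arithmetic P := by
    intro v hv
    have hv' : P 0 = (fun x => x + (-1 : ℝ) • v) '' P 1 := by
      rw [hv, Set.image_image]
      simp
    refine ⟨v, fun j k => ?_⟩
    fin_cases j <;> fin_cases k
    · simp
    · simpa using hv
    · simpa using hv'
    · simp
  rcases hpar 0 1 with ⟨v, hv⟩ | ⟨v, hv⟩
  · exact key v hv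
  · -- `T` is centrally symmetric, hence so are the pieces
    have hU : T = P 0 ∪ P 1 := by
      rw [hP.2.2.1]
      ext x
      simp [Fin.exists_fin_two]
    have hT : T = (fun x => v - x) '' T := by
      conv_rhs => rw [hU, Set.image_union, ← hv]
      have : (fun x => v - x) '' P 1 = P 0 := by
        rw [hv, Set.image_image]
        simp
      rw [this, Set.union_comm, ← hU]
    obtain ⟨r, hr, g, hg⟩ := hP.1 0
    set L := g.toRealAffineIsometryEquiv.linearIsometryEquiv with hL
    have hgL : ∀ x, g x = L x + g 0 := by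
      intro x
      have := g.toRealAffineIsometryEquiv.map_vadd 0 x
      have e : g (x +ᵥ (0 : EuclideanSpace ℝ (Fin 2))) = L x + g 0 := this
      rw [vadd_eq_add, add_zero] at e
      exact e
    have hsym : P 0 = (fun x => (r • L v + (2 : ℝ) • (r • g 0)) - x) '' P 0 := by
      have h1 : P 0 = (fun x => r • g x) '' ((fun x => v - x) '' T) := by rw [← hT, hg]
      conv_lhs => rw [h1]
      conv_rhs => rw [hg]
      rw [Set.image_image, Set.image_image]
      refine Set.image_congr fun x _ => ?_
      show r • g (v - x) = r • L v + (2 : ℝ) • (r • g 0) - r • g x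
      rw [hgL (v - x), hgL x, map_sub]
      module
    refine key (v - (r • L v + (2 : ℝ) • (r • g 0))) ?_
    conv_lhs => rw [hv, hsym]
    rw [Set.image_image]
    refine Set.image_congr fun x _ => ?_
    abel

/-- **Reptiles with parallel pieces.** Let `n, m ≥ 2`. Some tile is at once an `n`-reptile with
pieces in arithmetic progression (for `n = 2` it is enough that the two pieces are translates or point
reflections of each other) and an `m`-reptile whose pieces are pairwise translates or point
reflections of each other, if and only if `m` or `m / n` is a perfect square. -/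
theorem result : ∀ n m : ℕ, 2 ≤ n → 2 ≤ m →
    ((∃ T : Set (EuclideanSpace ℝ (Fin 2)), Tile T ∧
      (∃ P : Fin n → Set (EuclideanSpace ℝ (Fin 2)),
        Dissection T P ∧ (Arithmetic P ∨ n = 2 ∧ Parallel P)) ∧
      (∃ Q : Fin m → Set (EuclideanSpace ℝ (Fin 2)), Dissection T Q ∧ Parallel Q)) ↔
    ∃ j : ℕ, m = j ^ 2 ∨ m = n * j ^ 2) := by
  intro n m hn hm
  constructor
  · rintro ⟨T, hT, ⟨P, hP, hA | ⟨rfl, hpar⟩⟩, Q, hQ, hQpar⟩
    · exact RepTile.square_condition hn hm hT hP hA hQ hQpar
    · exact RepTile.square_condition hn hm hT hP (two_parallel hP hpar) hQ hQpar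
  · intro h
    obtain ⟨T, hT, ⟨P, hP, hA⟩, Q, hQ, hQpar⟩ := RepTile.exists_tile hn hm h
    exact ⟨T, hT, ⟨P, hP, Or.inl hA⟩, Q, hQ, hQpar⟩

end Pool.Agent.Results.MP_d507c7_co.ParallelPieces
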