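import Pool.Agent.RepPara.Meas

set_option autoImplicit false

namespace Pool.Agent.Results.MP_d507c7_co.ParallelogramTiles

/-- A tile: a nonempty bounded closed set in the plane which is the closure of its interior. -/
def Tile (T : Set (EuclideanSpace ℝ (Fin 2))) : Prop :=
  T.Nonempty ∧ Bornology.IsBounded T ∧ IsClosed T ∧ closure (interior T) = T

/-- `T` is an `n`-reptile: there are `n` sets `P j` which are similar to `T` (images of `T` under
`x ↦ r • g x` with `r > 0` and `g` an isometry), pairwise congruent, with union `T` and with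
pairwise disjoint interiors. -/
def Reptile (n : ℕ) (T : Set (EuclideanSpace ℝ (Fin 2))) : Prop :=
  ∃ P : Fin n → Set (EuclideanSpace ℝ (Fin 2)),
    (∀ j, ∃ r : ℝ, 0 < r ∧ ∃ g : EuclideanSpace ℝ (Fin 2) ≃ᵢ EuclideanSpace ℝ (Fin 2),
      P j = (fun x => r • g x) '' T) ∧
    (∀ j k, ∃ g : EuclideanSpace ℝ (Fin 2) ≃ᵢ EuclideanSpace ℝ (Fin 2), P k = g '' P j) ∧
    T = ⋃ j, P j ∧
    Pairwise fun j k => Disjoint (interior (P j)) (interior (P k))

/-- The parallelogram with the corner `a` and the edge vectors `v`, `w`. -/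
def parallelogram (a v w : EuclideanSpace ℝ (Fin 2)) : Set (EuclideanSpace ℝ (Fin 2)) :=
  {x | ∃ s t : ℝ, s ∈ Set.Icc (0 : ℝ) 1 ∧ t ∈ Set.Icc (0 : ℝ) 1 ∧ x = a + s • v + t • w}

/-- `T` is the union of the `k` (nondegenerate) parallelograms with the corners `a j` and the edge
vectors `v j`, `w j`, and these parallelograms have pairwise disjoint interiors. -/
def Dissected {k : ℕ} (T : Set (EuclideanSpace ℝ (Fin 2)))
    (a v w : Fin k → EuclideanSpace ℝ (Fin 2)) : Prop :=
  (∀ j, LinearIndependent ℝ ![v j, w j]) ∧ T = ⋃ j, parallelogram (a j) (v j) (w j) ∧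
    Pairwise fun i j => Disjoint (interior (parallelogram (a i) (v i) (w i)))
      (interior (parallelogram (a j) (v j) (w j)))

/-- `T` can be dissected into finitely many parallelograms (of any shapes and directions). -/
def ParallelogramTile (T : Set (EuclideanSpace ℝ (Fin 2))) : Prop :=
  Tile T ∧ ∃ (k : ℕ) (a v w : Fin k → EuclideanSpace ℝ (Fin 2)), Dissected T a v w

open RepTile Pool.Agent.RepPara

private theorem nonempty_index {k : ℕ} {T : Set (EuclideanSpace ℝ (Fin 2))}
    {a v w : Fin k → EuclideanSpace ℝ (Fin 2)} (hT : Tile T) (h : Dissected T a v w) :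
    Nonempty (Fin k) := by
  obtain ⟨x, hx⟩ := hT.1
  rw [h.2.1, Set.mem_iUnion] at hx
  exact ⟨hx.choose⟩

private theorem only_if {n m : ℕ} (hn : 2 ≤ n) (hm : 2 ≤ m) {T : Set (EuclideanSpace ℝ (Fin 2))}
    (hT : ParallelogramTile T) (h₁ : Reptile n T) (h₂ : Reptile m T) :
    IsSquare n ∨ IsSquare m ∨ IsSquare (n * m) := by
  obtain ⟨hT, k, a, v, w, hk⟩ := hT
  have hne := nonempty_index hT hk
  obtain ⟨P, hP⟩ := h₁
  obtain ⟨Q, hQ⟩ := h₂
  have hV := LT_union hk.1 hT hk.2.1 hk.2.2
  obtain ⟨r, τ, B, S⟩ := sys_of_dissection hn hT hV hP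
  obtain ⟨r', τ', B', S'⟩ := sys_of_dissection hm hT hV hQ
  have := main_sys S S'
  rwa [Fintype.card_fin, Fintype.card_fin] at this

/-- a rectangle `√g × 1` is a `g α²`-reptile -/
private theorem box_rep {g α : ℕ} (hg : 0 < g) (hα : 0 < α) :
    Reptile (g * α * α) (box (Real.sqrt g) 1) := by
  have hgR : (0 : ℝ) < g := by exact_mod_cast hg
  have hs : 0 < Real.sqrt g := Real.sqrt_pos.mpr hgR
  have hss : Real.sqrt g * Real.sqrt g = g := Real.mul_self_sqrt hgR.le
  have hjR : (0 : ℝ) < α := by exact_mod_cast hα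
  have e1 : ((g * α : ℕ) : ℝ) * ((Real.sqrt g)⁻¹ / α) = Real.sqrt g := by
    push_cast
    rw [show ((g : ℝ) * α) * ((Real.sqrt g)⁻¹ / α) = (g * (Real.sqrt g)⁻¹) * (α / α) by ring,
      div_self hjR.ne', mul_one, ← div_eq_mul_inv, div_eq_iff hs.ne', hss]
  have e2 : (α : ℝ) * (1 / α) = 1 := by field_simp
  have hd := grid (finProdFinEquiv (m := g * α) (n := α)).symm (by positivity) hα
    (w := (Real.sqrt g)⁻¹ / α) (h := 1 / α) (by positivity) (by positivity) (by
    refine ⟨(Real.sqrt g)⁻¹ / α, by positivity, swp.toIsometryEquiv, ?_⟩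
    rw [e1, e2, ← box_swap (by positivity : (0 : ℝ) < (Real.sqrt g)⁻¹ / α)]
    congr 1
    · ring
    · field_simp)
  rw [e1, e2] at hd
  exact ⟨_, hd⟩

/-- a rectangle `√g × 1` is an `α²`-reptile -/
private theorem box_rep' {g α : ℕ} (hg : 0 < g) (hα : 0 < α) :
    Reptile (α * α) (box (Real.sqrt g) 1) := by
  have hgR : (0 : ℝ) < g := by exact_mod_cast hg
  have hs : 0 < Real.sqrt g := Real.sqrt_pos.mpr hgR
  have hjR : (0 : ℝ) < α := by exact_mod_cast hα
  have e1 : (α : ℝ) * (Real.sqrt g / α) = Real.sqrt g := by field_simp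
  have e2 : (α : ℝ) * (1 / α) = 1 := by field_simp
  have hd := grid (finProdFinEquiv (m := α) (n := α)).symm hα hα
    (w := Real.sqrt g / α) (h := 1 / α) (by positivity) (by positivity) (by
    refine ⟨(α : ℝ)⁻¹, by positivity, IsometryEquiv.refl E2, ?_⟩
    rw [e1, e2, ← box_scale (by positivity : (0 : ℝ) < (α : ℝ)⁻¹)]
    congr 1
    · field_simp
    · field_simp)
  rw [e1, e2] at hd
  exact ⟨_, hd⟩

private theorem box_tile {x : ℝ} (hx : 0 < x) : ParallelogramTile (box x 1) := by
  refine ⟨isTile_box hx one_pos, 1, fun _ => 0, fun _ => vec x 0, fun _ => vec 0 1, ?_, ?_, ?_⟩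
  · intro j
    rw [LinearIndependent.pair_iff]
    intro s t h
    have h0 : s * x + t * 0 = 0 := by
      have := congrArg (fun y : E2 => y 0) h
      exact this
    have h1 : s * 0 + t * 1 = 0 := by
      have := congrArg (fun y : E2 => y 1) h
      exact this
    constructor
    · have : s * x = 0 := by linarith
      exact (mul_eq_zero.mp this).resolve_right hx.ne'
    · linarith
  · rw [Set.iUnion_const]
    ext y
    constructor
    · rintro ⟨⟨h1, h2⟩, h3, h4⟩
      refine ⟨y 0 / x, y 1, ⟨div_nonneg h1 hx.le, (div_le_one hx).mpr h2⟩, ⟨h3, h4⟩, ?_⟩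
      ext i
      fin_cases i
      · show y 0 = 0 + y 0 / x * x + y 1 * 0
        field_simp
        ring
      · show y 1 = 0 + y 0 / x * 0 + y 1 * 1
        ring
    · rintro ⟨s, t, hs, ht, rfl⟩
      have e0 : ((0 : E2) + s • vec x 0 + t • vec 0 1) 0 = s * x := by
        show (0 : ℝ) + s * x + t * 0 = s * x
        ring
      have e1 : ((0 : E2) + s • vec x 0 + t • vec 0 1) 1 = t := by
        show (0 : ℝ) + s * 0 + t * 1 = t
        ring
      refine ⟨⟨?_, ?_⟩, ?_, ?_⟩
      · rw [e0]; exact mul_nonneg hs.1 hx.le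
      · rw [e0]; nlinarith [hs.2]
      · rw [e1]; exact ht.1
      · rw [e1]; exact ht.2
  · intro i j hij
    exact absurd (Subsingleton.elim i j) hij

private theorem if_part {n m : ℕ} (hn : 2 ≤ n) (hm : 2 ≤ m)
    (h : IsSquare n ∨ IsSquare m ∨ IsSquare (n * m)) :
    ∃ T, ParallelogramTile T ∧ Reptile n T ∧ Reptile m T := by
  have key : ∀ n m : ℕ, 2 ≤ n → 2 ≤ m → IsSquare n →
      ∃ T, ParallelogramTile T ∧ Reptile n T ∧ Reptile m T := by
    rintro n m hn hm ⟨α, rfl⟩
    have hα : 0 < α := by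
      rcases Nat.eq_zero_or_pos α with h | h
      · subst h; simp at hn
      · exact h
    have hm0 : 0 < m := by omega
    refine ⟨box (Real.sqrt m) 1, box_tile (Real.sqrt_pos.mpr (by exact_mod_cast hm0)),
      box_rep' hm0 hα, ?_⟩
    have := box_rep hm0 (show 0 < 1 by norm_num)
    rwa [mul_one, mul_one] at this
  rcases h with h | h | h
  · exact key n m hn hm h
  · obtain ⟨T, h1, h2, h3⟩ := key m n hm hn h
    exact ⟨T, h1, h3, h2⟩
  · have hn0 : 0 < n := by omega
    have hm0 : 0 < m := by omega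
    obtain ⟨q, hq⟩ := h
    set g := Nat.gcd n m with hg
    have hg0 : 0 < g := Nat.gcd_pos_of_pos_left m hn0
    obtain ⟨n', hn'⟩ := Nat.gcd_dvd_left n m
    obtain ⟨m', hm'⟩ := Nat.gcd_dvd_right n m
    rw [← hg] at hn' hm'
    have hcop : Nat.Coprime n' m' := by
      have h1 := Nat.coprime_div_gcd_div_gcd (m := n) (n := m) hg0
      rw [← hg] at h1
      have e1 : n / g = n' := Nat.div_eq_of_eq_mul_right hg0 hn'
      have e2 : m / g = m' := Nat.div_eq_of_eq_mul_right hg0 hm'
      rwa [e1, e2] at h1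
    have hsq : IsSquare (n' * m') := by
      have h1 : g ^ 2 ∣ q ^ 2 := by
        refine ⟨n' * m', ?_⟩
        rw [sq q, ← hq]
        conv_lhs => rw [hn', hm']
        ring
      obtain ⟨q', hq'⟩ := (Nat.pow_dvd_pow_iff two_ne_zero).mp h1
      refine ⟨q', ?_⟩
      have h2 : g ^ 2 * (n' * m') = g ^ 2 * (q' * q') := by
        have h3 : g ^ 2 * (n' * m') = n * m := by
          conv_rhs => rw [hn', hm']
          ring
        rw [h3, hq, hq']
        ring
      exact Nat.eq_of_mul_eq_mul_left (by positivity) h2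
    obtain ⟨q', hq'⟩ := hsq
    obtain ⟨α, hα⟩ := exists_eq_pow_of_mul_eq_pow (a := n') (b := m') (c := q') (k := 2)
      (by rw [Nat.isUnit_iff]; exact hcop) (by rw [hq', sq])
    obtain ⟨β, hβ⟩ := exists_eq_pow_of_mul_eq_pow (a := m') (b := n') (c := q') (k := 2)
      (by rw [Nat.isUnit_iff]; exact hcop.symm) (by rw [mul_comm, hq', sq])
    have hα0 : 0 < α := by
      rcases Nat.eq_zero_or_pos α with h | h
      · subst h; rw [hα] at hn'; simp at hn'; omega
      · exact h
    have hβ0 : 0 < β := by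
      rcases Nat.eq_zero_or_pos β with h | h
      · subst h; rw [hβ] at hm'; simp at hm'; omega
      · exact h
    refine ⟨box (Real.sqrt g) 1, box_tile (Real.sqrt_pos.mpr (by exact_mod_cast hg0)), ?_, ?_⟩
    · have := box_rep hg0 hα0
      rwa [mul_assoc, ← sq, ← hα, ← hn'] at this
    · have := box_rep hg0 hβ0
      rwa [mul_assoc, ← sq, ← hβ, ← hm'] at this

/-- **Reptiles which can be dissected into parallelograms**: the pairs of numbers of pieces. -/
theorem result (n m : ℕ) (hn : 2 ≤ n) (hm : 2 ≤ m) :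
    (∃ T, ParallelogramTile T ∧ Reptile n T ∧ Reptile m T) ↔
      (IsSquare n ∨ IsSquare m ∨ IsSquare (n * m)) := by
  refine ⟨?_, if_part hn hm⟩
  rintro ⟨T, hT, h1, h2⟩
  exact only_if hn hm hT h1 h2

end Pool.Agent.Results.MP_d507c7_co.ParallelogramTiles
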