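import Pool.Agent.RepJump.Poly
import Pool.Agent.RepJump.Alg

/-!
# Tiles with unbalanced sides which are reptiles in two ways

Let `T` be a tile whose section lengths, in every direction, are continuous up to finitely many
jumps, and let `h L` be the sum of the jumps in the direction `L`. (For a polygon the jumps come from
the sides parallel to the sections: `h L` is the total length of the sides with `T` behind them minus
the total length of the sides with `T` before them. All finite unions of compact convex sets with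
disjoint interiors are such tiles.) If `T` is an `n`-reptile then `√n h L` is a sum of `n` values of
`h`. If `T` is also an `m`-reptile and `n`, `m`, `n m` are not squares then all `h L` are zero or four
of them are linearly independent over the rational numbers.

Proof. The section lengths of a dissected tile are almost everywhere the sums of those of the pieces,
and the total jump is additive. A piece is the image of `T` under a similarity of the ratio
`1 / √n`, which turns the directions and multiplies the jumps by `1 / √n`. So the rational vector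
space spanned by the values of `h` is a vector space over the field generated by `√n` and `√m`, which
has degree four.
-/

set_option autoImplicit false

namespace Pool.Agent.Results.MP_d507c7_co.UnbalancedSides

open MeasureTheory

/-- A tile: a nonempty bounded closed set in the plane which is the closure of its interior. -/
def Tile (T : Set (EuclideanSpace ℝ (Fin 2))) : Prop :=
  T.Nonempty ∧ Bornology.IsBounded T ∧ IsClosed T ∧ closure (interior T) = T

/-- `T` is an `n`-reptile: there are `n` sets `P j` which are similar to `T` (images of `T` under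
`x ↦ r • g x` with `r > 0` and `g` an isometry), pairwise congruent, with union `T` and with
pairwise disjoint interiors. -/
def Reptile (n : ℕ) (T : Set (EuclideanSpace ℝ (Fin 2))) : Prop :=
  ∃ P : Fin n → Set (EuclideanSpace ℝ (Fin 2)),
    (∀ j, ∃ r : ℝ, 0 < r ∧ ∃ g : EuclideanSpace ℝ (Fin 2) ≃ᵢ EuclideanSpace ℝ (Fin 2),
      P j = (fun x => r • g x) '' T) ∧
    (∀ j k, ∃ g : EuclideanSpace ℝ (Fin 2) ≃ᵢ EuclideanSpace ℝ (Fin 2), P k = g '' P j) ∧
    T = ⋃ j, P j ∧
    Pairwise fun j k => Disjoint (interior (P j)) (interior (P k))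

/-- The length of the section of `T` by the line of the points `L (t, s)`, `s` real. The linear
isometry `L` stands for a direction of sections. -/
noncomputable def sectionLength (T : Set (EuclideanSpace ℝ (Fin 2)))
    (L : EuclideanSpace ℝ (Fin 2) ≃ₗᵢ[ℝ] EuclideanSpace ℝ (Fin 2)) (t : ℝ) : ℝ :=
  (volume {s : ℝ | L !₂[t, s] ∈ T}).toReal

/-- `A` is almost everywhere the sum of a continuous function and of a step function which has the
jump `c x` at `x` for finitely many `x`, and `h` is the sum of these jumps. -/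
def HasTotalJump (A : ℝ → ℝ) (h : ℝ) : Prop :=
  ∃ φ : ℝ → ℝ, Continuous φ ∧ ∃ c : ℝ →₀ ℝ,
    (∀ᵐ t : ℝ, A t = φ t + c.sum fun x a => if x ≤ t then a else 0) ∧ h = c.sum fun _ a => a

open RepTile Pool.Agent.RepJump

/-- The values of `h` times `√n`. -/
theorem sqrt_sum {n : ℕ} (hn0 : 0 < n) {T : Set E2} (hT : IsTile T)
    {h : (E2 ≃ₗᵢ[ℝ] E2) → ℝ} (hJ : ∀ L, HasJump (sec T L) (h L)) {P : Fin n → Set E2}
    (hP : IsDissection T P) (L : E2 ≃ₗᵢ[ℝ] E2) :
    ∃ L' : Fin n → (E2 ≃ₗᵢ[ℝ] E2), √(n : ℝ) * h L = ∑ j, h (L' j) := by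
  have hP' := hP
  obtain ⟨h1, h2, h3, h4⟩ := hP'
  choose ρ hρ0 g hg using h1
  set i₀ : Fin n := ⟨0, hn0⟩ with hi₀
  have hcard : ∀ i, (n : ℝ) * ρ i ^ 2 = 1 := fun i => (dissection_facts hT hP i (hρ0 i) (hg i)).1
  have hρ : ∀ i, ρ i = ρ i₀ := by
    intro i
    have hnR : (0 : ℝ) < n := by exact_mod_cast hn0
    have e1 : (n : ℝ) * ρ i ^ 2 = n * ρ i₀ ^ 2 := by rw [hcard, hcard]
    have e2 : ρ i ^ 2 = ρ i₀ ^ 2 := mul_left_cancel₀ hnR.ne' e1
    exact (pow_left_inj₀ (hρ0 i).le (hρ0 i₀).le two_ne_zero).mp e2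
  set r := ρ i₀ with hr
  have hr0 : 0 < r := hρ0 i₀
  have hcr := hcard i₀
  rw [← hr] at hcr
  have hvol : ∀ i, volume (P i) = ENNReal.ofReal (r ^ 2) * volume T := by
    intro i
    rw [hg i, volume_sim T (hρ0 i), hρ i]
  have hsum : ∑ i, volume (P i) = volume T := by
    simp only [hvol, Finset.sum_const, Finset.card_univ, Fintype.card_fin, nsmul_eq_mul]
    rw [← mul_assoc, ← ENNReal.ofReal_natCast, ← ENNReal.ofReal_mul (Nat.cast_nonneg n), hcr,
      ENNReal.ofReal_one, one_mul]
  have hPm : ∀ i, MeasurableSet (P i) := by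
    intro i
    rw [hg i]
    have e : sim (ρ i) (g i) '' T = (Homeomorph.smulOfNeZero (ρ i) (hρ0 i).ne' : E2 ≃ₜ E2) ''
        ((g i) '' T) := by
      rw [Set.image_image]
      rfl
    rw [e]
    exact ((Homeomorph.smulOfNeZero (ρ i) (hρ0 i).ne' : E2 ≃ₜ E2).isClosedMap _
      ((g i).toHomeomorph.isClosedMap _ hT.2.2.1)).measurableSet
  choose L' b hL' using fun i => sec_sim T (hρ0 i) (g i) L
  have e1 : ∀ i ∈ (Finset.univ : Finset (Fin n)), HasJump (sec (P i) L) (r * h (L' i)) := by
    intro i _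
    have e2 := (hJ (L' i)).affine (hρ0 i) (b i)
    rw [hρ i] at e2
    refine e2.congr (Filter.Eventually.of_forall fun t => ?_)
    rw [hg i, hL' i t, hρ i]
  have e2 : HasJump (sec T L) (∑ i, r * h (L' i)) := by
    refine (HasJump.sum Finset.univ e1).congr ?_
    filter_upwards [sec_union hT.2.1 hT.2.2.1.measurableSet hPm h3 hsum hT.volume_ne_top L]
      with t ht
    exact ht.symm
  have e3 : h L = r * ∑ i, h (L' i) := by
    rw [Finset.mul_sum]
    exact (hJ L).unique e2
  have e4 : √(n : ℝ) * r = 1 := by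
    have e5 : (√(n : ℝ) * r) ^ 2 = 1 := by
      rw [mul_pow, Real.sq_sqrt (Nat.cast_nonneg n), hcr]
    have e6 : 0 ≤ √(n : ℝ) * r := mul_nonneg (Real.sqrt_nonneg _) hr0.le
    nlinarith
  exact ⟨L', by rw [e3, ← mul_assoc, e4, one_mul]⟩

theorem sqrt_mem {n : ℕ} {h : (E2 ≃ₗᵢ[ℝ] E2) → ℝ} {L : E2 ≃ₗᵢ[ℝ] E2}
    (H : ∃ L' : Fin n → (E2 ≃ₗᵢ[ℝ] E2), √(n : ℝ) * h L = ∑ j, h (L' j)) :
    √(n : ℝ) * h L ∈ Submodule.span ℚ (Set.range h) := by
  obtain ⟨L', hL'⟩ := H
  rw [hL']
  exact Submodule.sum_mem _ fun i _ => Submodule.subset_span ⟨L' i, rfl⟩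

theorem two_le {n : ℕ} (hn : ¬ IsSquare n) : 2 ≤ n := by
  rcases n with _ | _ | n
  · exact absurd ⟨0, rfl⟩ hn
  · exact absurd ⟨1, rfl⟩ hn
  · omega

/-- **Result.** (1) If `T` is the union of finitely many compact convex sets with disjoint interiors
then its section lengths have a total jump in every direction `L`. (2) Total jumps are unique.
(3) Let `T` be a tile with the total jumps `h L`. If `T` is an `n`-reptile, `n ≥ 1`, then `√n h L` is
for every `L` a sum of `n` values of `h`; and if `T` is an `n`-reptile and an `m`-reptile, where `n`, `m`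
and `n m` are no squares, then all `h L` are zero or four of them are linearly independent over
`ℚ`. -/
theorem result :
    (∀ (k : ℕ) (K : Fin k → Set (EuclideanSpace ℝ (Fin 2))), (∀ i, Convex ℝ (K i)) →
      (∀ i, IsCompact (K i)) → (Pairwise fun i j => Disjoint (interior (K i)) (interior (K j))) →
      ∀ L, ∃ x, HasTotalJump (sectionLength (⋃ i, K i) L) x) ∧
    (∀ (A : ℝ → ℝ) (x y : ℝ), HasTotalJump A x → HasTotalJump A y → x = y) ∧
    (∀ T : Set (EuclideanSpace ℝ (Fin 2)), Tile T →
      ∀ h : (EuclideanSpace ℝ (Fin 2) ≃ₗᵢ[ℝ] EuclideanSpace ℝ (Fin 2)) → ℝ,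
      (∀ L, HasTotalJump (sectionLength T L) (h L)) →
      (∀ n : ℕ, 1 ≤ n → Reptile n T → ∀ L,
        ∃ L' : Fin n → (EuclideanSpace ℝ (Fin 2) ≃ₗᵢ[ℝ] EuclideanSpace ℝ (Fin 2)),
          √(n : ℝ) * h L = ∑ j, h (L' j)) ∧
      (∀ n m : ℕ, ¬ IsSquare n → ¬ IsSquare m → ¬ IsSquare (n * m) → Reptile n T → Reptile m T →
        (∀ L, h L = 0) ∨
        ∃ L : Fin 4 → (EuclideanSpace ℝ (Fin 2) ≃ₗᵢ[ℝ] EuclideanSpace ℝ (Fin 2)),
          LinearIndependent ℚ fun j => h (L j))) := by
  have key : ∀ T : Set (EuclideanSpace ℝ (Fin 2)), Tile T →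
      ∀ h : (EuclideanSpace ℝ (Fin 2) ≃ₗᵢ[ℝ] EuclideanSpace ℝ (Fin 2)) → ℝ,
      (∀ L, HasTotalJump (sectionLength T L) (h L)) →
      (∀ n : ℕ, 1 ≤ n → Reptile n T → ∀ L,
        ∃ L' : Fin n → (EuclideanSpace ℝ (Fin 2) ≃ₗᵢ[ℝ] EuclideanSpace ℝ (Fin 2)),
          √(n : ℝ) * h L = ∑ j, h (L' j)) := by
    rintro T hT h hJ n hn ⟨P, hP⟩ L
    exact sqrt_sum hn hT hJ hP L
  refine ⟨fun k K h1 h2 h3 L => hasJump_union h1 h2 h3 L, fun A x y hx hy => HasJump.unique hx hy,
    fun T hT h hJ => ⟨key T hT h hJ, fun n m hn hm hnm h₁ h₂ => ?_⟩⟩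
  by_cases h0 : ∀ L, h L = 0
  · exact Or.inl h0
  · right
    push Not at h0
    obtain ⟨L₀, hL₀⟩ := h0
    exact four_of_closed hn hm hnm h
      (fun L => sqrt_mem (key T hT h hJ n (by have := two_le hn; omega) h₁ L))
      (fun L => sqrt_mem (key T hT h hJ m (by have := two_le hm; omega) h₂ L)) hL₀

end Pool.Agent.Results.MP_d507c7_co.UnbalancedSides
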